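import Mathlib
import Pool.Agent.MRZ.CorrW

/-!
Correlation of the Möbius function with shifted primes for almost all shifts in short ranges.

For a finite set `S` of natural numbers, `A` and `ε > 0` there are `K`, `X₀` such that for `X ≥ X₀`,
`K (log X)^{#S} ≤ H ≤ X`, `h₀ ≤ A X`:
* for every bounded sequence `|b_n| ≤ 1`:
  `∑_{h₀ < h ≤ h₀+H} |∑_{n ≤ X} b_n (∏_{a∈S} Λ(n+a)) μ(n+h)| ≤ ε H X`, and the number of `h ∈ (h₀, h₀+H]` for which
  the inner sum exceeds `ε X` in absolute value is at most `ε H`;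
* for every bounded sequence `|c_h| ≤ 1`:
  `∑_{n ≤ X} (∏_{a∈S} Λ(n+a)) |∑_{h₀ < h ≤ h₀+H} c_h μ(n+h)| ≤ ε H X`.
-/

set_option autoImplicit false

namespace Pool.Agent.Results.MP_0bfb7f_nt.AlmostAllShifts

open Finset ArithmeticFunction

private lemma phase_exists (z : ℂ) : ∃ u : ℂ, ‖u‖ ≤ 1 ∧ u * z = (‖z‖ : ℂ) := by
  rcases eq_or_ne z 0 with hz | hz
  · exact ⟨0, by simp, by simp [hz]⟩
  · refine ⟨(starRingEnd ℂ) z / ‖z‖, ?_, ?_⟩
    · rw [norm_div, Complex.norm_conj, Complex.norm_real, norm_norm]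
      exact div_self_le_one _
    · have hz' : (‖z‖ : ℂ) ≠ 0 := by simpa using hz
      rw [div_mul_eq_mul_div, Complex.conj_mul', div_eq_iff hz']
      ring

theorem result (S : Finset ℕ) (A : ℕ) (ε : ℝ) (hε : 0 < ε) :
    ∃ (K : ℝ) (X₀ : ℕ), ∀ (X H h₀ : ℕ), X₀ ≤ X → K * Real.log X ^ S.card ≤ H →
      H ≤ X → h₀ ≤ A * X →
      (∀ b : ℕ → ℂ, (∀ n, ‖b n‖ ≤ 1) →
        (∑ h ∈ Finset.Ioc h₀ (h₀ + H), ‖∑ n ∈ Finset.Icc 1 X,
            b n * ((∏ a ∈ S, vonMangoldt (n + a) : ℝ) : ℂ) * ((moebius (n + h) : ℤ) : ℂ)‖ ≤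
          ε * H * X) ∧
        (((Finset.Ioc h₀ (h₀ + H)).filter (fun h => ε * X < ‖∑ n ∈ Finset.Icc 1 X,
            b n * ((∏ a ∈ S, vonMangoldt (n + a) : ℝ) : ℂ) *
              ((moebius (n + h) : ℤ) : ℂ)‖)).card : ℝ) ≤ ε * H) ∧
      (∀ c : ℕ → ℂ, (∀ h, ‖c h‖ ≤ 1) →
        ∑ n ∈ Finset.Icc 1 X, (∏ a ∈ S, vonMangoldt (n + a)) *
          ‖∑ h ∈ Finset.Ioc h₀ (h₀ + H), c h * ((moebius (n + h) : ℤ) : ℂ)‖ ≤ ε * H * X) := by
  set δ : ℝ := min ε (ε ^ 2) with hδ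
  have hδ0 : 0 < δ := lt_min hε (by positivity)
  obtain ⟨K, X₀, hK, h⟩ := Pool.MRZ.corr_muW S A δ hδ0
  refine ⟨K, max X₀ 1, fun X H h₀ hX hKH hHX hh => ?_⟩
  have hX0 : X₀ ≤ X := le_trans (le_max_left _ _) hX
  have hX1 : (1 : ℝ) ≤ X := by exact_mod_cast le_trans (le_max_right X₀ 1) hX
  have hHX' : (0 : ℝ) ≤ H * X := by positivity
  have key : ∀ b : ℕ → ℂ, (∀ n, ‖b n‖ ≤ 1) →
      ∑ h ∈ Finset.Ioc h₀ (h₀ + H), ‖∑ n ∈ Finset.Icc 1 X,
        b n * ((∏ a ∈ S, vonMangoldt (n + a) : ℝ) : ℂ) * ((moebius (n + h) : ℤ) : ℂ)‖ ≤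
        δ * H * X := by
    intro b hb
    have key := h X H h₀ b hX0 hKH hHX hh hb
    have heq : ∀ k : ℕ, (∑ n ∈ Finset.Icc 1 X, (Pool.MRZ.WL S n : ℂ) * b n * Pool.MRZ.mu (n + k)) =
        ∑ n ∈ Finset.Icc 1 X, b n * ((∏ a ∈ S, vonMangoldt (n + a) : ℝ) : ℂ) *
          ((moebius (n + k) : ℤ) : ℂ) := by
      intro k
      refine Finset.sum_congr rfl fun n _ => ?_
      simp only [Pool.MRZ.WL, Pool.MRZ.mu]
      ring
    simpa only [heq] using key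
  have hle : δ * H * X ≤ ε * H * X := by
    have h1 : δ * H * X = δ * (H * X) := by ring
    have h2 : ε * H * X = ε * (H * X) := by ring
    rw [h1, h2]
    exact mul_le_mul_of_nonneg_right (min_le_left _ _) hHX'
  refine ⟨fun b hb => ⟨(key b hb).trans hle, ?_⟩, fun c hc => ?_⟩
  · set f : ℕ → ℝ := fun k => ‖∑ n ∈ Finset.Icc 1 X, b n *
      ((∏ a ∈ S, vonMangoldt (n + a) : ℝ) : ℂ) * ((moebius (n + k) : ℤ) : ℂ)‖ with hf
    set B : Finset ℕ := (Finset.Ioc h₀ (h₀ + H)).filter (fun k => ε * X < f k) with hB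
    have h3 : (B.card : ℝ) * (ε * X) ≤ ∑ k ∈ Finset.Ioc h₀ (h₀ + H), f k := by
      calc (B.card : ℝ) * (ε * X) = ∑ k ∈ B, ε * X := by
            rw [Finset.sum_const, nsmul_eq_mul]
        _ ≤ ∑ k ∈ B, f k := by
            refine Finset.sum_le_sum fun k hk => ?_
            rw [hB, Finset.mem_filter] at hk
            exact hk.2.le
        _ ≤ ∑ k ∈ Finset.Ioc h₀ (h₀ + H), f k := by
            refine Finset.sum_le_sum_of_subset_of_nonneg (Finset.filter_subset _ _) ?_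
            intro k _ _
            exact norm_nonneg _
    have h4 : (B.card : ℝ) * (ε * X) ≤ (ε * H) * (ε * X) := by
      refine (h3.trans (key b hb)).trans ?_
      have h1 : δ * H * X = δ * (H * X) := by ring
      have h2 : (ε * H) * (ε * X) = ε ^ 2 * (H * X) := by ring
      rw [h1, h2]
      exact mul_le_mul_of_nonneg_right (min_le_right _ _) hHX'
    exact le_of_mul_le_mul_right h4 (by positivity)
  · choose u hu1 hu2 using phase_exists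
    set z : ℕ → ℂ := fun n => ∑ h ∈ Finset.Ioc h₀ (h₀ + H), c h * ((moebius (n + h) : ℤ) : ℂ) with hz
    have hk := (key (fun n => u (z n)) (fun n => hu1 _)).trans hle
    refine le_trans ?_ hk
    have e1 : ((∑ n ∈ Finset.Icc 1 X, (∏ a ∈ S, vonMangoldt (n + a)) * ‖z n‖ : ℝ) : ℂ) =
        ∑ h ∈ Finset.Ioc h₀ (h₀ + H), c h * ∑ n ∈ Finset.Icc 1 X, u (z n) *
          ((∏ a ∈ S, vonMangoldt (n + a) : ℝ) : ℂ) * ((moebius (n + h) : ℤ) : ℂ) := by
      push_cast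
      simp_rw [Finset.mul_sum]
      rw [Finset.sum_comm]
      refine Finset.sum_congr rfl fun n _ => ?_
      rw [← hu2 (z n)]
      simp only [hz, Finset.mul_sum]
      refine Finset.sum_congr rfl fun k _ => ?_
      ring
    have e2 : 0 ≤ ∑ n ∈ Finset.Icc 1 X, (∏ a ∈ S, vonMangoldt (n + a)) * ‖z n‖ :=
      Finset.sum_nonneg fun n _ => mul_nonneg
        (Finset.prod_nonneg fun _ _ => vonMangoldt_nonneg) (norm_nonneg _)
    have e3 : ∑ n ∈ Finset.Icc 1 X, (∏ a ∈ S, vonMangoldt (n + a)) * ‖z n‖ =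
        ‖∑ h ∈ Finset.Ioc h₀ (h₀ + H), c h * ∑ n ∈ Finset.Icc 1 X, u (z n) *
          ((∏ a ∈ S, vonMangoldt (n + a) : ℝ) : ℂ) * ((moebius (n + h) : ℤ) : ℂ)‖ := by
      rw [← e1, Complex.norm_real, Real.norm_of_nonneg e2]
    rw [e3]
    refine (norm_sum_le _ _).trans (Finset.sum_le_sum fun k _ => ?_)
    rw [norm_mul]
    exact mul_le_of_le_one_left (norm_nonneg _) (hc k)

end Pool.Agent.Results.MP_0bfb7f_nt.AlmostAllShifts
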