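import Mathlib
import Pool.Agent.BMG.Fin

/-!
Correlation of the Möbius function with shifted primes: the individual shifts `1 ≤ h ≤ H`, where the range may
be shorter than the mean gap `log X` between primes.

`Saving θ ρ`: for all large `X` and all `H` with `(log X)^θ ≤ H ≤ X`, the sum over `1 ≤ h ≤ H` of
`|∑_{n≤X} b_n Λ(n) μ(n+h)|` is at most `ρ` times its trivial bound `∑_{h≤H} ∑_{n≤X} Λ(n) |μ(n+h)|`, for all bounded `b`;
and dually the same bound holds for `∑_{n≤X} Λ(n) |∑_{h≤H} c_h μ(n+h)|`, for all bounded `c`.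

The theorem: the saving factor `ρ` can be taken `< 1` for every exponent `θ > 1/2`, and arbitrarily small for
exponents `θ < 1` close to `1`.
-/

set_option autoImplicit false

namespace Pool.Agent.Results.MP_0bfb7f_nt.BelowMeanGap

open Finset ArithmeticFunction

/-- For all large `X` and all `H` with `(log X)^θ ≤ H ≤ X`: the correlations of `μ(n+h)`, `1 ≤ h ≤ H`, with
`b_n Λ(n)`, `n ≤ X`, save a factor `ρ` over the trivial bound on average over `h` (for all bounded `b`), and so do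
the sums over `h` with bounded coefficients `c_h`, on average over `n` with the weight `Λ(n)`. -/
def Saving (θ ρ : ℝ) : Prop :=
  ∃ X₀ : ℕ, ∀ X H : ℕ, X₀ ≤ X → (Real.log X) ^ θ ≤ H → H ≤ X →
    (∀ b : ℕ → ℂ, (∀ n, ‖b n‖ ≤ 1) →
      ∑ h ∈ Icc 1 H, ‖∑ n ∈ Icc 1 X, b n * (vonMangoldt n : ℂ) * ((moebius (n + h) : ℤ) : ℂ)‖ ≤
        ρ * ∑ h ∈ Icc 1 H, ∑ n ∈ Icc 1 X, vonMangoldt n * |((moebius (n + h) : ℤ) : ℝ)|) ∧
    (∀ c : ℕ → ℂ, (∀ h, ‖c h‖ ≤ 1) →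
      ∑ n ∈ Icc 1 X, vonMangoldt n * ‖∑ h ∈ Icc 1 H, c h * ((moebius (n + h) : ℤ) : ℂ)‖ ≤
        ρ * ∑ h ∈ Icc 1 H, ∑ n ∈ Icc 1 X, vonMangoldt n * |((moebius (n + h) : ℤ) : ℝ)|)

private lemma phase_exists (z : ℂ) : ∃ u : ℂ, ‖u‖ ≤ 1 ∧ u * z = (‖z‖ : ℂ) := by
  rcases eq_or_ne z 0 with hz | hz
  · exact ⟨0, by simp, by simp [hz]⟩
  · refine ⟨(starRingEnd ℂ) z / ‖z‖, ?_, ?_⟩
    · rw [norm_div, Complex.norm_conj, Complex.norm_real, norm_norm]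
      exact div_self_le_one _
    · have hz' : (‖z‖ : ℂ) ≠ 0 := by simpa using hz
      rw [div_mul_eq_mul_div, Complex.conj_mul', div_eq_iff hz']
      ring

/-- duality -/
private lemma dual (X H : ℕ) (b : ℕ → ℂ) (hb : ∀ n, ‖b n‖ ≤ 1) (E : ℝ)
    (hE : ∀ c : ℕ → ℂ, (∀ h, ‖c h‖ ≤ 1) →
      ∑ n ∈ Icc 1 X, vonMangoldt n * ‖∑ h ∈ Icc 1 H, c h * ((moebius (n + h) : ℤ) : ℂ)‖ ≤ E) :
    ∑ h ∈ Icc 1 H, ‖∑ n ∈ Icc 1 X,
      b n * (vonMangoldt n : ℂ) * ((moebius (n + h) : ℤ) : ℂ)‖ ≤ E := by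
  choose u hu1 hu2 using phase_exists
  set z : ℕ → ℂ := fun h => ∑ n ∈ Icc 1 X,
    b n * (vonMangoldt n : ℂ) * ((moebius (n + h) : ℤ) : ℂ) with hz
  refine le_trans ?_ (hE (fun h => u (z h)) (fun h => hu1 _))
  have e1 : ((∑ h ∈ Icc 1 H, ‖z h‖ : ℝ) : ℂ) =
      ∑ n ∈ Icc 1 X, b n * (vonMangoldt n : ℂ) *
        ∑ h ∈ Icc 1 H, u (z h) * ((moebius (n + h) : ℤ) : ℂ) := by
    push_cast
    simp_rw [Finset.mul_sum]
    rw [Finset.sum_comm]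
    refine Finset.sum_congr rfl fun h _ => ?_
    rw [← hu2 (z h)]
    simp only [hz, Finset.mul_sum]
    refine Finset.sum_congr rfl fun n _ => ?_
    ring
  have e2 : 0 ≤ ∑ h ∈ Icc 1 H, ‖z h‖ := Finset.sum_nonneg fun _ _ => norm_nonneg _
  have e3 : ∑ h ∈ Icc 1 H, ‖z h‖ =
      ‖∑ n ∈ Icc 1 X, b n * (vonMangoldt n : ℂ) *
        ∑ h ∈ Icc 1 H, u (z h) * ((moebius (n + h) : ℤ) : ℂ)‖ := by
    rw [← e1, Complex.norm_real, Real.norm_of_nonneg e2]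
  rw [e3]
  refine (norm_sum_le _ _).trans (Finset.sum_le_sum fun n _ => ?_)
  rw [norm_mul, norm_mul, Complex.norm_real, Real.norm_of_nonneg vonMangoldt_nonneg]
  exact mul_le_mul_of_nonneg_right (mul_le_of_le_one_left vonMangoldt_nonneg (hb n)) (norm_nonneg _)

private lemma ioc_zero (H : ℕ) : Ioc 0 (0 + H) = Icc 1 H := by
  ext n
  rw [Finset.mem_Ioc, Finset.mem_Icc]
  omega

theorem result :
    (∀ θ : ℝ, 1 / 2 < θ → θ < 1 → ∃ ρ : ℝ, ρ < 1 ∧ Saving θ ρ) ∧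
    (∀ ε : ℝ, 0 < ε → ∃ θ : ℝ, θ < 1 ∧ Saving θ ε) := by
  have hlog : Filter.Tendsto (fun X : ℕ => Real.log (X : ℝ)) Filter.atTop Filter.atTop :=
    Real.tendsto_log_atTop.comp tendsto_natCast_atTop_atTop
  constructor
  · intro θ hθ _
    obtain ⟨c, X₁, hc, hc1, h⟩ := Pool.BMG.fin_two θ hθ 0
    refine ⟨1 - c, by linarith, X₁, fun X H hX1 hH hHX => ?_⟩
    have h4 : ∀ c' : ℕ → ℂ, (∀ h, ‖c' h‖ ≤ 1) →
        ∑ n ∈ Icc 1 X, vonMangoldt n * ‖∑ h ∈ Icc 1 H, c' h * ((moebius (n + h) : ℤ) : ℂ)‖ ≤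
          (1 - c) * ∑ h ∈ Icc 1 H, ∑ n ∈ Icc 1 X,
            vonMangoldt n * |((moebius (n + h) : ℤ) : ℝ)| := by
      intro c' hc'
      have h5 := h X H 0 c' hX1 hH hHX (Nat.zero_le _) hc'
      rw [ioc_zero] at h5
      exact h5
    exact ⟨fun b hb => dual X H b hb _ h4, h4⟩
  · intro ε hε
    obtain ⟨δ, X₁, hδ, h⟩ := Pool.BMG.fin_one (ε / 4) (by positivity) 0
    obtain ⟨C, K, X₂, hC, h2⟩ := Pool.BMG.triv_bounds 0
    obtain ⟨θ, hθ⟩ : ∃ θ : ℝ, θ = max (1 - δ) (1 / 2) := ⟨_, rfl⟩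
    have hθ0 : 0 < θ := by
      rw [hθ]
      exact lt_of_lt_of_le (by norm_num) (le_max_right _ _)
    have hθ1 : θ < 1 := by
      rw [hθ]
      exact max_lt (by linarith) (by norm_num)
    have hpw : Filter.Tendsto (fun X : ℕ => (Real.log (X : ℝ)) ^ θ) Filter.atTop Filter.atTop :=
      (tendsto_rpow_atTop hθ0).comp hlog
    obtain ⟨X₃, h3⟩ := Filter.eventually_atTop.1
      (((hpw.eventually_ge_atTop (K : ℝ)).and (hlog.eventually_ge_atTop 1)).and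
        (Filter.eventually_ge_atTop 1))
    refine ⟨θ, hθ1, max X₁ (max X₂ X₃), fun X H hX hH hHX => ?_⟩
    have hX1 : X₁ ≤ X := (le_max_left _ _).trans hX
    have hX2 : X₂ ≤ X := ((le_max_left _ _).trans (le_max_right _ _)).trans hX
    have hX3 : X₃ ≤ X := ((le_max_right _ _).trans (le_max_right _ _)).trans hX
    obtain ⟨⟨h5, h6⟩, h7⟩ := h3 X hX3
    have hHX' : H ≤ X := hHX
    have hKH : K ≤ H := by
      have := h5.trans hH
      exact_mod_cast this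
    have hH' : (Real.log X) ^ (1 - δ) ≤ H := by
      refine (Real.rpow_le_rpow_of_exponent_le h6 ?_).trans hH
      rw [hθ]
      exact le_max_left _ _
    obtain ⟨t1, -⟩ := h2 X H 0 hX2 hKH hHX' (Nat.zero_le _)
    rw [ioc_zero] at t1
    have h4 : ∀ c' : ℕ → ℂ, (∀ h, ‖c' h‖ ≤ 1) →
        ∑ n ∈ Icc 1 X, vonMangoldt n * ‖∑ h ∈ Icc 1 H, c' h * ((moebius (n + h) : ℤ) : ℂ)‖ ≤
          ε * ∑ h ∈ Icc 1 H, ∑ n ∈ Icc 1 X,
            vonMangoldt n * |((moebius (n + h) : ℤ) : ℝ)| := by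
      intro c' hc'
      have h8 := h X H 0 c' hX1 hH' hHX' (Nat.zero_le _) hc'
      rw [ioc_zero] at h8
      refine h8.trans ?_
      have h9 := mul_le_mul_of_nonneg_left t1 hε.le
      refine le_trans (le_of_eq ?_) h9
      ring
    exact ⟨fun b hb => dual X H b hb _ h4, h4⟩

end Pool.Agent.Results.MP_0bfb7f_nt.BelowMeanGap
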