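import Mathlib
import Pool.Agent.Sps.PrimeW

/-!
Correlation of the Moebius function with shifted primes and prime tuples for almost all shifts in sparse sets.
-/

set_option autoImplicit false

namespace Pool.Agent.Results.MP_0bfb7f_nt.SparseShifts

open Finset ArithmeticFunction

/-- the weight `∏_{i∈S} Λ(n+i)` of the prime tuples -/
noncomputable def W (S : Finset ℕ) (n : ℕ) : ℝ := ∏ i ∈ S, vonMangoldt (n + i)

/-- the number of `(x, y) ∈ K^r × K^r` with `∑ x_i = ∑ y_i` -/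
def additiveEnergy (r : ℕ) (K : Finset ℕ) : ℕ :=
  ((Fintype.piFinset (fun _ : Fin r => K) ×ˢ Fintype.piFinset (fun _ : Fin r => K)).filter
    (fun z : (Fin r → ℕ) × (Fin r → ℕ) => ∑ i, z.1 i = ∑ i, z.2 i)).card

/-- both one-sided bounds for the bilinear form `∑_{k∈K} ∑_{n≤X} c_k b_n W(n) μ(n + φ(k))` -/
def Small (S : Finset ℕ) (X : ℕ) (K : Finset ℕ) (φ : ℕ → ℤ) (B : ℝ) : Prop :=
  (∀ b : ℕ → ℂ, (∀ n, ‖b n‖ ≤ 1) →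
    ∑ k ∈ K, ‖∑ n ∈ Finset.Icc 1 X, b n * (W S n : ℂ) * ((moebius ((n : ℤ) + φ k).toNat : ℤ) : ℂ)‖ ≤ B) ∧
  (∀ c : ℕ → ℂ, (∀ k, ‖c k‖ ≤ 1) →
    ∑ n ∈ Finset.Icc 1 X, W S n * ‖∑ k ∈ K, c k * ((moebius ((n : ℤ) + φ k).toNat : ℤ) : ℂ)‖ ≤ B)

private lemma energy_eq (r : ℕ) (S : Finset ℕ) :
    Pool.SSP.energy r S (fun k => (k : ℤ)) = additiveEnergy r S := by
  unfold Pool.SSP.energy additiveEnergy
  congr 1
  ext z
  simp only [Finset.mem_filter]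
  rw [← Nat.cast_sum, ← Nat.cast_sum, Nat.cast_inj]

private lemma small_of (S : Finset ℕ) (X : ℕ) (K : Finset ℕ) (φ : ℕ → ℤ) (B : ℝ)
    (h : ∀ (b e : ℕ → ℂ), (∀ n, ‖b n‖ ≤ 1) → (∀ m, ‖e m‖ ≤ 1) →
      ‖∑ m ∈ K, e m * ∑ k ∈ Finset.Icc 1 X, (Pool.MRZ.WL S k : ℂ) * b k *
        Pool.MRZ.mu ((k : ℤ) + φ m).toNat‖ ≤ B) : Small S X K φ B :=
  Pool.Sps.two_forms K (Finset.Icc 1 X) (W S)
    (fun n => Finset.prod_nonneg fun _ _ => vonMangoldt_nonneg)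
    (fun m n => ((moebius ((n : ℤ) + φ m).toNat : ℤ) : ℂ)) B h

theorem result (S : Finset ℕ) :
    (∀ r : ℕ, 1 ≤ r → ∃ C : ℝ, ∀ (A : ℕ) (E ε : ℝ), 0 < ε → ∃ X₀ : ℕ,
      ∀ (X H h₀ : ℕ) (K : Finset ℕ), X₀ ≤ X → (Real.log X) ^ C ≤ H → H ≤ X → h₀ ≤ A * X →
      K ⊆ Finset.Ioc h₀ (h₀ + H) → (H : ℝ) * additiveEnergy r K ≤ E * (K.card : ℝ) ^ (2 * r) →
      Small S X K (fun k => k) (ε * K.card * X)) ∧
    (∀ d : ℕ, 1 ≤ d → ∃ C : ℝ, ∀ f : Polynomial ℤ, f.natDegree = d → 0 < f.leadingCoeff →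
      ∀ (A : ℕ) (ε : ℝ), 0 < ε → ∃ X₀ : ℕ, ∀ (X K h₀ : ℕ),
      X₀ ≤ X → (Real.log X) ^ C ≤ K → (∀ k ∈ Finset.Icc 1 K, f.eval (k : ℤ) ≤ X) → h₀ ≤ A * X →
      Small S X (Finset.Icc 1 K) (fun k => h₀ + f.eval (k : ℤ)) (ε * K * X)) ∧
    (∃ C : ℝ, ∀ (A : ℕ) (ε : ℝ), 0 < ε → ∃ X₀ : ℕ, ∀ (X Q h₀ : ℕ),
      X₀ ≤ X → (Real.log X) ^ C ≤ Q → Q ≤ X → h₀ ≤ A * X →
      Small S X ((Finset.Icc 1 Q).filter Nat.Prime) (fun q => h₀ + q)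
        (ε * ((Finset.Icc 1 Q).filter Nat.Prime).card * X)) := by
  refine ⟨fun r hr => ?_, fun d hd => ?_, ?_⟩
  · obtain ⟨C, h⟩ := Pool.Sps.sparse_genW S r hr
    refine ⟨C, fun A E ε hε => ?_⟩
    obtain ⟨X₀, h⟩ := h A E ε hε
    refine ⟨X₀, fun X H h₀ K h1 h2 h3 h4 h5 h6 => small_of S X K _ _ fun b e hb he => ?_⟩
    have h8 := h X H h₀ K (fun k => k) b e h1 h2 h3 h4 (fun k hk => by
      have := h5 hk
      rw [Finset.mem_Ioc] at this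
      exact this) (by rw [energy_eq]; exact h6) hb he
    have h9 : ∀ n m : ℕ, ((n : ℤ) + (m : ℤ)).toNat = n + m := fun n m => by omega
    simp only [h9]
    exact h8
  · obtain ⟨C, h⟩ := Pool.SpsW.poly_shiftsW S d hd
    refine ⟨C, fun f hf hl A ε hε => ?_⟩
    obtain ⟨X₀, h⟩ := h f hf hl A ε hε
    refine ⟨X₀, fun X K h₀ h1 h2 h3 h4 => small_of S X _ _ _ fun b e hb he => ?_⟩
    have h8 := h X K h₀ b e h1 h2 h3 h4 hb he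
    simp only [← add_assoc]
    exact h8
  · obtain ⟨C, h⟩ := Pool.SpsW.prime_shiftsW S
    refine ⟨C, fun A ε hε => ?_⟩
    obtain ⟨X₀, h⟩ := h A ε hε
    refine ⟨X₀, fun X Q h₀ h1 h2 h3 h4 => small_of S X _ _ _ fun b e hb he => ?_⟩
    have h8 := h X Q h₀ b e h1 h2 h3 h4 hb he
    have h9 : ∀ n m : ℕ, ((n : ℤ) + ((h₀ : ℤ) + (m : ℤ))).toNat = n + (h₀ + m) :=
      fun n m => by omega
    simp only [h9]
    exact h8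

end Pool.Agent.Results.MP_0bfb7f_nt.SparseShifts
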